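import Pool.Agent.H11.IT.Sum

set_option autoImplicit false
set_option linter.unusedSectionVars false

/-! Versions with norm one of `rinv` and `main` of the library file
`Pool.Graph.R_pool_sql_team_39128cda.H.MP_ba88e9_an.C`. -/

namespace Pool.Agent.H11.IT

open Filter Topology Set Classical

open Pool.Agent.H.MP_ba88e9_an

variable {K : Type*} [LinearOrder K] [OrderTop K] [WellFoundedLT K] {n : K ↪ ℕ}
  (h0 : ∀ s, D n ⊤ s)

variable [TopologicalSpace K] [CompactSpace K] (hc : ∀ t, IsClopen {s | D n t s})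

lemma rinv1 {ι W F : Type*} [NormedAddCommGroup W] [NormedSpace ℝ W] [CompleteSpace W]
    [NormedAddCommGroup F] [NormedSpace ℝ F] [CompleteSpace F] (P : W →L[ℝ] F) (z : ι → W)
    (h : ∀ c : ι →₀ ℝ, ‖c.sum fun i a => a • z i‖ ≤ ‖P (c.sum fun i a => a • z i)‖)
    (d : ∀ V : Submodule ℝ F, IsClosed (V : Set F) → (∀ s, P (z s) ∈ V) → ∀ f, f ∈ V) :
    ∃ J : F →L[ℝ] W, (∀ f, P (J f) = f) ∧ ∀ f, ‖J f‖ ≤ ‖f‖ := by
  set Z := cl (range z)
  have iso : ∀ B ∈ Z, ‖B‖ ≤ ‖P B‖ := fun B hB => by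
    refine closure_minimal (s := (Submodule.span ℝ (range z) : Set W)) (t := {B | ‖B‖ ≤ ‖P B‖})
      (fun B hB => ?_) (isClosed_le (by fun_prop) (by fun_prop)) hB
    obtain ⟨c, rfl⟩ := Finsupp.mem_span_range_iff_exists_finsupp.1 hB
    exact h c
  have an := (P ∘L Z.subtypeL).antilipschitz_of_bound (K := 1) fun B => by simpa using iso B.1 B.2
  let Q := ContinuousLinearEquiv.ofBijective (P ∘L Z.subtypeL) (LinearMap.ker_eq_bot.2 an.injective)
    (eq_top_iff.2 fun f _ => d (P ∘L Z.subtypeL).range (an.isClosed_range (P ∘L Z.subtypeL).uniformContinuous)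
      (fun s => ⟨⟨z s, mcl ⟨s, rfl⟩⟩, rfl⟩) f)
  refine ⟨Z.subtypeL ∘L Q.symm, Q.apply_symm_apply, fun f => ?_⟩
  have h1 := iso (Q.symm f).1 (Q.symm f).2
  have h2 : P (Q.symm f).1 = f := Q.apply_symm_apply f
  rw [h2] at h1
  exact h1

include h0 hc in
lemma main1' {X : Type*} [NormedAddCommGroup X] [NormedSpace ℝ X] [CompleteSpace X]
    (ev : M n → StrongDual ℝ X) (ex : K → X) (ev1 : ∀ f x, |ev f x| ≤ ‖x‖)
    (ev2 : ∀ {x r}, (∀ f, |ev f x| ≤ r) → ‖x‖ ≤ r) (ev3 : ∀ f s, ev f (ex s) = f.1 s)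
    (a2 : ∀ x, Continuous fun s => ev ⟨_, anM s⟩ x) :
    ∃ (J : C(K, ℝ) →L[ℝ] inj X X) (P : inj X X →L[ℝ] C(K, ℝ)), (∀ f, P (J f) = f) ∧
      (∀ f, ‖J f‖ ≤ ‖f‖) ∧ ∀ B, ‖P B‖ ≤ ‖B‖ := by
  set a : K → StrongDual ℝ X := fun s => ev ⟨_, anM s⟩
  have a1 : ∀ s, ‖a s‖ ≤ 1 := fun s => ContinuousLinearMap.opNorm_le_bound _ zero_le_one fun x => by
    simpa using ev1 _ x
  have a3 : ∀ s (B : StrongDual ℝ X →L[ℝ] X), |a s (B (a s))| ≤ ‖B‖ :=
    fun s B => (ev1 _ _).trans ((B.le_opNorm _).trans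
      (mul_le_of_le_one_right (norm_nonneg _) (a1 s)))
  have a4 : ∀ B : inj X X, Continuous fun s => a s (B.1 (a s)) := fun B => by
    have := cont (fun s => a s ∘L ContinuousLinearMap.apply ℝ X (a s)) a3 (by
      rintro B ⟨x, y, h⟩
      simp only [ContinuousLinearMap.comp_apply, ContinuousLinearMap.apply_apply, h, map_smul]
      exact (a2 x).mul (a2 y)) B.2
    exact this
  let P : inj X X →L[ℝ] C(K, ℝ) := LinearMap.mkContinuous
    { toFun := fun B => ⟨_, a4 B⟩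
      map_add' := fun _ _ => ContinuousMap.ext fun s => map_add (a s) _ _
      map_smul' := fun _ _ => ContinuousMap.ext fun s => map_smul (a s) _ _ } 1 fun B => by
      rw [one_mul]
      exact (ContinuousMap.norm_le _ (norm_nonneg _)).2 fun s => a3 s B
  let z : K → inj X X := fun s => ⟨(ContinuousLinearMap.apply ℝ ℝ (ex s)).smulRight
    (ex s), mcl ⟨ex s, ex s, fun _ => rfl⟩⟩
  have z1 : ∀ s, P (z s) = ind hc s := fun s => ContinuousMap.ext fun u => by
    change a u (a u (ex s) • ex s) = an n u s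
    simp only [map_smul, a, ev3, an_apply]
    split_ifs <;> simp
  have : CompleteSpace (inj X X) := inferInstanceAs (CompleteSpace (cl _))
  obtain ⟨J, hJ⟩ := rinv1 P z (fun c => by
    have k : ∀ (c : K →₀ ℝ) (f g : M n), ∑ s ∈ c.support, c s * (f.1 s * g.1 s) ≤
        ‖P (c.sum fun i a => a • z i)‖ := fun c f g => by
      have := key f.2 g.2 c ⊤ ‖P (c.sum fun i a => a • z i)‖ fun u _ => by
        rw [(Finsupp.filter_eq_self_iff _ _).2 fun s _ => h0 s]
        refine le_trans (le_of_eq ?_) ((le_abs_self _).trans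
          ((P (c.sum fun i a => a • z i)).norm_coe_le_norm u))
        simp [Finsupp.sum, z1, Finsupp.linearCombination_apply, ind]
      rw [(Finsupp.filter_eq_self_iff _ _).2 fun s _ => h0 s] at this
      exact this.trans (mul_le_of_le_one_right (norm_nonneg _) (mul_le_one₀ f.2.2.1 (g.2.1 _) g.2.2.1))
    change ‖(c.sum fun i a => a • z i).1‖ ≤ _
    refine ContinuousLinearMap.opNorm_le_bound _ (norm_nonneg _) fun ψ => ev2 fun f => ?_
    have : ev f ((c.sum fun i a => a • z i).1 ψ) = ψ (∑ s ∈ c.support, (c s * f.1 s) • ex s) := by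
      simp [Finsupp.sum, z, ev3, mul_assoc, mul_comm (ψ _)]
    rw [this, mul_comm]
    refine (ψ.le_opNorm _).trans (mul_le_mul_of_nonneg_left (ev2 fun g => ?_) (norm_nonneg _))
    have k2 := k (-c) f g
    rw [← Finsupp.linearCombination_apply, map_neg, map_neg, norm_neg, Finsupp.support_neg] at k2
    simp only [Finsupp.neg_apply, neg_mul, Finset.sum_neg_distrib] at k2
    simp only [map_sum, map_smul, ev3, smul_eq_mul, mul_assoc]
    exact abs_le.2 ⟨neg_le.1 k2, k c f g⟩)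
    fun V h1 h2 => dense h0 hc V h1 (by simpa only [z1] using h2)
  exact ⟨J, P, hJ.1, hJ.2, fun B =>
    (ContinuousMap.norm_le _ (norm_nonneg _)).2 fun s => a3 s B⟩

include hc in
lemma main1 : ∃ (J : C(K, ℝ) →L[ℝ] inj (X h0) (X h0)) (P : inj (X h0) (X h0) →L[ℝ] C(K, ℝ)),
    (∀ f, P (J f) = f) ∧ (∀ f, ‖J f‖ ≤ ‖f‖) ∧ ∀ B, ‖P B‖ ≤ ‖B‖ := main1' h0 hc (ev h0) (ex h0) (ev1 h0) (ev2 h0) (ev3 h0) fun x =>
  cont (fun s => lp.evalCLM ℝ (fun _ : M n => ℝ) ⊤ ⟨_, anM s⟩)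
    (fun s w => lp.norm_apply_le_norm (by simp) w _) (by
      rintro _ ⟨t, rfl⟩
      exact (ind hc t).continuous) x.2

end Pool.Agent.H11.IT
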