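import Pool.Agent.H11.IT.NormOne

set_option autoImplicit false

namespace Pool.Agent.H11.IT

open Filter Topology Set Classical Ordinal

open Pool.Agent.H.MP_ba88e9_an

/-- the one-point functions in `C[0, β]` -/
lemma seq_C (β : Ordinal.{0}) (h1 : ω ≤ β) : ∃ u : ℕ → C(Icc 0 β, ℝ), (∀ i, 1 ≤ ‖u i‖) ∧
    ∀ (F : Finset ℕ) (ε : ℕ → ℝ), (∀ i, |ε i| ≤ 1) → ‖∑ i ∈ F, ε i • u i‖ ≤ 1 := by
  set p : ℕ → Icc 0 β := fun i => ⟨i, zero_le, (natCast_lt_omega0 i).le.trans h1⟩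
  have hp : ∀ i, IsClopen {p i} := fun i => ⟨isClosed_singleton, by
    convert (SuccOrder.isOpen_singleton_iff.2
      fun h => (natCast_lt_omega0 i).not_ge (omega0_le_of_isSuccLimit h)).preimage
      (continuous_subtype_val (p := (· ∈ Icc 0 β)))
    ext
    simp [p, Subtype.ext_iff]⟩
  set u : ℕ → C(Icc 0 β, ℝ) := fun i => ⟨_, (hp i).continuous_indicator (f := fun _ => (1 : ℝ))
    continuous_const⟩
  refine ⟨u, fun i => by simpa [u] using (u i).norm_coe_le_norm (p i), fun F ε k =>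
    (ContinuousMap.norm_le _ zero_le_one).2 fun s => ?_⟩
  simpa using fin p (fun i j h => by simpa [p] using h) (fun i => u i)
    (fun i s => by simp [u, Pi.single_apply]) F ε k s

/-- the unit vectors of `c₀` -/
lemma seq_c0 : ∃ u : ℕ → ZeroAtInftyContinuousMap ℕ ℝ, (∀ i, 1 ≤ ‖u i‖) ∧
    ∀ (F : Finset ℕ) (ε : ℕ → ℝ), (∀ i, |ε i| ≤ 1) → ‖∑ i ∈ F, ε i • u i‖ ≤ 1 := by
  set u : ℕ → ZeroAtInftyContinuousMap ℕ ℝ := fun i => ⟨⟨fun s => if s = i then 1 else 0,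
    continuous_of_discreteTopology⟩, tendsto_const_nhds.congr' (by
      rw [cocompact_eq_cofinite]
      filter_upwards [eventually_cofinite_ne i] with s hs
      simp [hs])⟩
  refine ⟨u, fun i => by simpa [u] using (u i).toBCF.norm_coe_le_norm i, fun F ε k =>
    (BoundedContinuousFunction.norm_le (f := ZeroAtInftyContinuousMap.toBCF _) zero_le_one).2
      fun s => ?_⟩
  have : ∀ F : Finset ℕ, (∑ i ∈ F, ε i • u i) s = ∑ i ∈ F, ε i * u i s := fun F => by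
    induction F using Finset.induction_on with
    | empty => rfl
    | insert i F h ih => simp [Finset.sum_insert h, ih]
  exact (this F ▸ fin id Function.injective_id (fun i => u i) (fun _ _ => by simp [u]) F ε k s :)

/-- the space for one ordinal -/
theorem one_space (β : Ordinal.{0}) (h2 : β.card ≤ Cardinal.aleph0) :
    ∃ (X : Type 1) (_ : NormedAddCommGroup X) (_ : NormedSpace ℝ X) (_ : CompleteSpace X),
    (∃ (J : C(Icc 0 β, ℝ) →L[ℝ] inj X X) (P : inj X X →L[ℝ] C(Icc 0 β, ℝ)), (∀ f, P (J f) = f) ∧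
      (∀ f, ‖J f‖ ≤ ‖f‖) ∧ ∀ B, ‖P B‖ ≤ ‖B‖) ∧
    WUC X := by
  have : Fact ((0 : Ordinal) ≤ β) := ⟨zero_le⟩
  have : Countable (Icc 0 β) := by
    rw [show Icc 0 β = Iio (β + 1) by ext; simp, ← Cardinal.mk_le_aleph0_iff,
      Cardinal.mk_Iio_ordinal, Cardinal.lift_le_aleph0, card_add, card_one]
    exact Cardinal.add_le_aleph0.2 ⟨h2, Cardinal.one_le_aleph0⟩
  obtain ⟨m, hm⟩ := exists_injective_nat (Icc 0 β)
  let n : Icc 0 β ↪ ℕ := ⟨fun s => if s = ⊤ then 0 else m s + 1, fun s t h => by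
    by_cases a : s = ⊤ <;> by_cases b : t = ⊤ <;> simp_all [hm.eq_iff]⟩
  have h0 : ∀ s, D n ⊤ s := fun s => ⟨le_top, fun u h => by simp [n] at h⟩
  have c : ∀ t : Icc 0 β, IsClopen {s | s ≤ t} := fun t => ⟨isClosed_Iic, by
    convert (isOpen_Iio (a := t.1 + 1)).preimage (continuous_subtype_val (p := (· ∈ Icc 0 β)))
    ext
    simp⟩
  refine ⟨X h0, inferInstance, inferInstance, inferInstance, main1 h0 fun t => ?_, wuc_X h0⟩
  convert (c t).inter ((((finite_Iio (n t)).preimage n.injective.injOn).inter_of_left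
    (Iio t)).isClopen_biInter fun u _ => (c u).compl)
  ext
  simp [D]

/-- One space for all countable ordinals. -/
theorem one_for_all :
    ∃ (X : Type 1) (_ : NormedAddCommGroup X) (_ : NormedSpace ℝ X) (_ : CompleteSpace X),
    (∀ β : Ordinal.{0}, β.card ≤ Cardinal.aleph0 →
      ∃ (J : C(Icc 0 β, ℝ) →L[ℝ] inj X X) (P : inj X X →L[ℝ] C(Icc 0 β, ℝ)),
        (∀ f, P (J f) = f) ∧ (∀ f, ‖J f‖ ≤ ‖f‖) ∧ ∀ B, ‖P B‖ ≤ ‖B‖) ∧
    WUC X := by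
  have key : ∀ β : {β : Ordinal.{0} // β.card ≤ Cardinal.aleph0},
      ∃ (X : Type 1) (_ : NormedAddCommGroup X) (_ : NormedSpace ℝ X) (_ : CompleteSpace X),
      (∃ (J : C(Icc 0 β.1, ℝ) →L[ℝ] inj X X) (P : inj X X →L[ℝ] C(Icc 0 β.1, ℝ)),
        (∀ f, P (J f) = f) ∧ (∀ f, ‖J f‖ ≤ ‖f‖) ∧ ∀ B, ‖P B‖ ≤ ‖B‖) ∧ WUC X := fun β => one_space β.1 β.2
  choose X a1 a2 a3 a4 a5 using key
  refine ⟨lp X 1, inferInstance, inferInstance, inferInstance, fun β hβ => ?_, wuc_lp a5⟩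
  refine cmp_inj (lp.singleContinuousLinearMap ℝ X 1 ⟨β, hβ⟩) (lp.evalCLM ℝ X 1 ⟨β, hβ⟩)
    (fun y => ?_) (fun y => ?_) (fun x => lp.norm_apply_le_norm one_ne_zero x _) (a4 ⟨β, hβ⟩)
  · exact lp.single_apply_self (E := X) 1
      (⟨β, hβ⟩ : {β : Ordinal.{0} // β.card ≤ Cardinal.aleph0}) y
  · exact (lp.norm_single (E := X) (p := 1) one_pos
      (⟨β, hβ⟩ : {β : Ordinal.{0} // β.card ≤ Cardinal.aleph0}) y).le

/-- The space `inj X X` as an abstract injective tensor product, for a family of spaces. -/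
lemma pack_all {X : Type 1} [NormedAddCommGroup X] [NormedSpace ℝ X] [CompleteSpace X]
    (h : ∀ β : Ordinal.{0}, β.card ≤ Cardinal.aleph0 →
      ∃ (J : C(Icc 0 β, ℝ) →L[ℝ] inj X X) (P : inj X X →L[ℝ] C(Icc 0 β, ℝ)),
        (∀ f, P (J f) = f) ∧ (∀ f, ‖J f‖ ≤ ‖f‖) ∧ ∀ B, ‖P B‖ ≤ ‖B‖) :
    ∃ (Z : Type 1) (_ : NormedAddCommGroup Z) (_ : NormedSpace ℝ Z) (b : X → X → Z),
      (CompleteSpace Z ∧ (∀ x, IsLinearMap ℝ (b x)) ∧ (∀ y, IsLinearMap ℝ fun x => b x y) ∧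
      Dense (Submodule.span ℝ {z | ∃ x y, z = b x y} : Set Z) ∧ ∀ (n : ℕ) (x y : Fin n → X),
      IsLUB {r | ∃ φ ψ : StrongDual ℝ X, ‖φ‖ ≤ 1 ∧ ‖ψ‖ ≤ 1 ∧ r = |∑ i, φ (x i) * ψ (y i)|}
        ‖∑ i, b (x i) (y i)‖) ∧
      ∀ β : Ordinal.{0}, β.card ≤ Cardinal.aleph0 →
        ∃ (J : C(Icc 0 β, ℝ) →L[ℝ] Z) (P : Z →L[ℝ] C(Icc 0 β, ℝ)),
          (∀ f, P (J f) = f) ∧ (∀ f, ‖J f‖ ≤ ‖f‖) ∧ ∀ B, ‖P B‖ ≤ ‖B‖ := by
  have hS : ∀ z : StrongDual ℝ X →L[ℝ] X,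
      z ∈ {B : StrongDual ℝ X →L[ℝ] X | ∃ (x : X) (y : X), ∀ φ, B φ = φ x • y} ↔
        ∃ x y, z = bt x y := fun z => exists₂_congr fun x y =>
    ⟨fun h => ContinuousLinearMap.ext h, fun h φ => by rw [h]; rfl⟩
  refine ⟨inj X X, inferInstance, inferInstance,
    fun x y => ⟨bt x y, mcl ((hS _).2 ⟨x, y, rfl⟩)⟩, ⟨?_,
    fun x => ⟨fun _ _ => Subtype.ext ((bt_l x).1 _ _), fun _ _ => Subtype.ext ((bt_l x).2 _ _)⟩,
    fun x => ⟨fun _ _ => Subtype.ext ((bt_r x).1 _ _), fun _ _ => Subtype.ext ((bt_r x).2 _ _)⟩,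
    dcl _ _ fun z hz => let ⟨x, y, e⟩ := (hS z).1 hz; ⟨_, ⟨x, y, rfl⟩, e.symm⟩,
    fun n x y => by rw [Submodule.coe_norm, Submodule.coe_sum]; exact bt_n n x y⟩, h⟩
  exact inferInstanceAs (CompleteSpace (cl _))

end Pool.Agent.H11.IT
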