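import Pool.Graph.R_pool_sql_team_39128cda.H.MP_ba88e9_an.E

set_option autoImplicit false
set_option linter.unusedSectionVars false

namespace Pool.Agent.H11.IT

open Filter Topology Set

/-- The terms of weakly unconditionally Cauchy series tend to zero in norm. -/
def WUC (X : Type*) [NormedAddCommGroup X] [NormedSpace ℝ X] : Prop :=
  ∀ (u : ℕ → X) (C : ℝ), (∀ (F : Finset ℕ) (ε : ℕ → ℝ), (∀ i, |ε i| ≤ 1) →
    ‖∑ i ∈ F, ε i • u i‖ ≤ C) → Tendsto (fun i => ‖u i‖) atTop (𝓝 0)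

lemma tendsto_of_le {u : ℕ → ℝ} (h0 : ∀ i, 0 ≤ u i) (h : ∀ δ : ℝ, 0 < δ → ∀ᶠ i in atTop, u i ≤ δ) :
    Tendsto u atTop (𝓝 0) := by
  rw [Metric.tendsto_nhds]
  intro ε hε
  filter_upwards [h (ε / 2) (by positivity)] with i hi
  rw [Real.dist_0_eq_abs, abs_of_nonneg (h0 i)]
  linarith

open Pool.Agent.H.MP_ba88e9_an in
lemma wuc_X {K : Type*} [LinearOrder K] [OrderTop K] [WellFoundedLT K] {n : K ↪ ℕ}
    (h0 : ∀ s, D n ⊤ s) : WUC (X h0) := by
  intro u C h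
  choose L hL using fun i => lin h0 (u i)
  refine tendsto_of_le (fun i => norm_nonneg _) fun δ hδ => ?_
  filter_upwards [nc h0 L C (fun F ε h' f hf => by
    have := (ev1 h0 ⟨f, hf⟩ (∑ i ∈ F, ε i • u i)).trans (h F ε h')
    simpa [← hL] using this) δ hδ] with i hi
  exact ev2 h0 fun f => hL i f ▸ hi f f.2

lemma WUC.noemb {E X : Type*} [NormedAddCommGroup E] [NormedSpace ℝ E] [NormedAddCommGroup X]
    [NormedSpace ℝ X] (h : WUC X) (u : ℕ → E) (h1 : ∀ i, 1 ≤ ‖u i‖)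
    (h2 : ∀ (F : Finset ℕ) (ε : ℕ → ℝ), (∀ i, |ε i| ≤ 1) → ‖∑ i ∈ F, ε i • u i‖ ≤ 1) :
    ¬ ∃ (T : E →L[ℝ] X) (c : ℝ), 0 < c ∧ ∀ x, c * ‖x‖ ≤ ‖T x‖ := by
  rintro ⟨T, c, c0, hc⟩
  have := h (fun i => T (u i)) ‖T‖ fun F ε hε => by
    have e : ∑ i ∈ F, ε i • T (u i) = T (∑ i ∈ F, ε i • u i) := by simp
    rw [e]
    exact (T.le_opNorm _).trans (mul_le_of_le_one_right (norm_nonneg _) (h2 F ε hε))
  obtain ⟨i, hi⟩ := (this.eventually_lt_const c0).exists
  nlinarith [hc (u i), h1 i]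

section lp

variable {ι : Type*} {E : ι → Type*} [∀ i, NormedAddCommGroup (E i)] [∀ i, NormedSpace ℝ (E i)]

lemma hasSum_norm (f : lp E 1) : HasSum (fun s => ‖f s‖) ‖f‖ := by
  have := lp.hasSum_norm (p := 1) (by norm_num) f
  simpa using this

lemma wuc_lp (h : ∀ i, WUC (E i)) : WUC (lp E 1) := by
  intro u C hu
  have coord : ∀ s, Tendsto (fun i => ‖u i s‖) atTop (𝓝 0) := fun s =>
    h s (fun i => u i s) C fun F ε hε => by
      have e : ∑ i ∈ F, ε i • u i s = lp.evalCLM ℝ E 1 s (∑ i ∈ F, ε i • u i) := by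
        simp only [map_sum, map_smul]
        rfl
      rw [e]
      exact (lp.norm_apply_le_norm one_ne_zero (∑ i ∈ F, ε i • u i) s).trans (hu F ε hε)
  by_contra hcon
  obtain ⟨δ, hδ, hf⟩ : ∃ δ : ℝ, 0 < δ ∧ ∃ᶠ i in atTop, δ ≤ ‖u i‖ := by
    by_contra hc
    push Not at hc
    refine hcon (tendsto_of_le (fun i => norm_nonneg _) fun δ hδ => ?_)
    have := hc δ hδ
    exact this.mono fun i hi => hi.le
  have step : ∀ v : lp E 1, ∃ᶠ i in atTop, ‖v‖ + δ / 2 ≤ ‖v + u i‖ := by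
    intro v
    obtain ⟨S, hS⟩ := ((hasSum_norm v).eventually (lt_mem_nhds
      (show ‖v‖ - δ / 8 < ‖v‖ by linarith))).exists
    have ht : Tendsto (fun i => ∑ s ∈ S, ‖u i s‖) atTop (𝓝 0) := by
      simpa using tendsto_finsetSum S fun s _ => coord s
    refine (hf.and_eventually (ht.eventually_lt_const (show 0 < δ / 8 by linarith))).mono ?_
    rintro i ⟨hi1, hi2⟩
    classical
    have hw : HasSum (fun s => ‖v s‖ + if s ∈ S then ‖u i s‖ - ‖v s‖ else 0)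
        (‖v‖ + ∑ s ∈ S, (‖u i s‖ - ‖v s‖)) := by
      refine (hasSum_norm v).add ?_
      have := hasSum_sum_of_ne_finset_zero (s := S)
        (f := fun s => if s ∈ S then ‖u i s‖ - ‖v s‖ else 0) (L := .unconditional _)
        (fun s hs => if_neg hs)
      rwa [Finset.sum_congr rfl fun s hs => if_pos hs] at this
    have h1 := ((hasSum_norm v).add (hasSum_norm (u i))).sub (hw.mul_left 2)
    have h2 := hasSum_le (fun s => ?_) h1 (hasSum_norm (v + u i))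
    · rw [Finset.sum_sub_distrib] at h2
      linarith
    · have e : (v + u i) s = v s + u i s := rfl
      rw [e]
      split_ifs
      · have := norm_sub_le (v s + u i s) (u i s)
        rw [add_sub_cancel_right] at this
        linarith
      · have := norm_sub_le (v s + u i s) (v s)
        rw [add_sub_cancel_left] at this
        linarith
  have key : ∀ N : ℕ, ∃ F : Finset ℕ, N * (δ / 2) ≤ ‖∑ i ∈ F, u i‖ := by
    intro N
    induction N with
    | zero => exact ⟨∅, by simp⟩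
    | succ N ih =>
      obtain ⟨F, hF⟩ := ih
      obtain ⟨i, hi1, hi2⟩ := ((step (∑ i ∈ F, u i)).and_eventually
        (eventually_gt_atTop (F.sup id))).exists
      refine ⟨insert i F, ?_⟩
      rw [Finset.sum_insert fun hi => hi2.not_ge (Finset.le_sup (f := id) hi), add_comm (u i)]
      push_cast
      linarith
  obtain ⟨N, hN⟩ := exists_nat_gt (C / (δ / 2))
  obtain ⟨F, hF⟩ := key N
  have := hu F (fun _ => 1) (by simp)
  simp only [one_smul] at this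
  rw [div_lt_iff₀ (by positivity)] at hN
  linarith

end lp

/-! ### Injective tensor squares of complemented subspaces -/

section inj

open Pool.Agent.H.MP_ba88e9_an

variable {X Y : Type*} [NormedAddCommGroup X] [NormedSpace ℝ X] [NormedAddCommGroup Y]
  [NormedSpace ℝ Y]

/-- the dual map -/
noncomputable def dm (i : Y →L[ℝ] X) : StrongDual ℝ X →L[ℝ] StrongDual ℝ Y :=
  (ContinuousLinearMap.compL ℝ Y X ℝ).flip i

lemma dm_apply (i : Y →L[ℝ] X) (φ : StrongDual ℝ X) : dm i φ = φ ∘L i := rfl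

/-- `i ⊗ i` -/
noncomputable def Phi (i : Y →L[ℝ] X) :
    (StrongDual ℝ Y →L[ℝ] Y) →L[ℝ] (StrongDual ℝ X →L[ℝ] X) :=
  (ContinuousLinearMap.compL ℝ (StrongDual ℝ X) Y X i) ∘L
    ((ContinuousLinearMap.compL ℝ (StrongDual ℝ X) (StrongDual ℝ Y) Y).flip (dm i))

lemma Phi_apply (i : Y →L[ℝ] X) (B : StrongDual ℝ Y →L[ℝ] Y) (φ : StrongDual ℝ X) :
    Phi i B φ = i (B (φ ∘L i)) := rfl

lemma Phi_mem (i : Y →L[ℝ] X) {B : StrongDual ℝ Y →L[ℝ] Y} (hB : B ∈ inj Y Y) :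
    Phi i B ∈ inj X X := by
  refine map_mem_closure (Phi i).continuous hB fun C hC => ?_
  induction hC using Submodule.span_induction with
  | mem C hC =>
    obtain ⟨x, y, h⟩ := hC
    refine Submodule.subset_span ⟨i x, i y, fun φ => ?_⟩
    rw [Phi_apply, h]
    simp
  | zero => rw [map_zero]; exact Submodule.zero_mem _
  | add a b _ _ ha hb => rw [map_add]; exact Submodule.add_mem _ ha hb
  | smul r a _ ha => rw [map_smul]; exact Submodule.smul_mem _ _ ha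

noncomputable def Psi (i : Y →L[ℝ] X) : inj Y Y →L[ℝ] inj X X :=
  ((Phi i) ∘L (inj Y Y).subtypeL).codRestrict _ fun B => Phi_mem i B.2

lemma Psi_le (i : Y →L[ℝ] X) (hi : ∀ y, ‖i y‖ ≤ ‖y‖) (B : inj Y Y) : ‖Psi i B‖ ≤ ‖B‖ := by
  change ‖Phi i B.1‖ ≤ ‖B.1‖
  refine ContinuousLinearMap.opNorm_le_bound _ (norm_nonneg B.1) fun φ => ?_
  rw [Phi_apply]
  refine (hi _).trans ((B.1.le_opNorm _).trans (mul_le_mul_of_nonneg_left ?_ (norm_nonneg _)))
  refine ContinuousLinearMap.opNorm_le_bound _ (norm_nonneg _) fun y => ?_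
  exact (φ.le_opNorm _).trans (mul_le_mul_of_nonneg_left (hi y) (norm_nonneg _))

lemma cmp_inj {E : Type*} [NormedAddCommGroup E] [NormedSpace ℝ E] (i : Y →L[ℝ] X) (p : X →L[ℝ] Y)
    (hp : ∀ y, p (i y) = y) (hi : ∀ y, ‖i y‖ ≤ ‖y‖) (hp1 : ∀ x, ‖p x‖ ≤ ‖x‖)
    (h : ∃ (J : E →L[ℝ] inj Y Y) (P : inj Y Y →L[ℝ] E), (∀ f, P (J f) = f) ∧
      (∀ f, ‖J f‖ ≤ ‖f‖) ∧ ∀ B, ‖P B‖ ≤ ‖B‖) :
    ∃ (J : E →L[ℝ] inj X X) (P : inj X X →L[ℝ] E), (∀ f, P (J f) = f) ∧
      (∀ f, ‖J f‖ ≤ ‖f‖) ∧ ∀ B, ‖P B‖ ≤ ‖B‖ := by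
  obtain ⟨J, P, hJ, hJ1, hP1⟩ := h
  refine ⟨Psi i ∘L J, P ∘L Psi p, fun f => ?_, fun f => (Psi_le i hi _).trans (hJ1 f),
    fun B => (hP1 _).trans (Psi_le p hp1 B)⟩
  have : Psi p (Psi i (J f)) = J f := by
    apply Subtype.ext
    apply ContinuousLinearMap.ext
    intro φ
    change p (i ((J f).1 ((φ ∘L p) ∘L i))) = (J f).1 φ
    rw [hp]
    congr 1
    ext y
    simp [hp]
  change P (Psi p (Psi i (J f))) = f
  rw [this, hJ]

end inj

end Pool.Agent.H11.IT
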